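import Mathlib

/-!
# Union-closed families: coding of tuples, expectations over a power of a family
-/

set_option autoImplicit false

namespace Pool.Agent.U86.UCD

open Finset

/-- closed under unions -/
def UC (F : Finset (Finset ℕ)) : Prop := ∀ X ∈ F, ∀ Y ∈ F, X ∪ Y ∈ F

/-- the number of the members containing `x` -/
def cnt (F : Finset (Finset ℕ)) (x : ℕ) : ℕ := (F.filter (fun S => x ∈ S)).card

/-- coding of a tuple of sets of natural numbers, above `M` -/
def enc (M : ℕ) {n : ℕ} (A : Fin n → Finset ℕ) : Finset ℕ :=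
  univ.biUnion (fun i : Fin n => (A i).image (fun e => M + Nat.pair i e))

theorem mem_enc {M n : ℕ} {A : Fin n → Finset ℕ} {y : ℕ} :
    y ∈ enc M A ↔ ∃ i : Fin n, ∃ e ∈ A i, M + Nat.pair i e = y := by
  simp [enc]

theorem code_mem_enc {M n : ℕ} {A : Fin n → Finset ℕ} {i : Fin n} {e : ℕ} :
    M + Nat.pair i e ∈ enc M A ↔ e ∈ A i := by
  rw [mem_enc]
  constructor
  · rintro ⟨j, f, hf, h⟩
    have h' : Nat.pair j f = Nat.pair i e := by omega
    rw [Nat.pair_eq_pair] at h'
    obtain ⟨h1, h2⟩ := h'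
    have h3 : j = i := Fin.ext h1
    rw [← h3, ← h2]
    exact hf
  · intro h
    exact ⟨i, e, h, rfl⟩

theorem enc_union {M n : ℕ} (A B : Fin n → Finset ℕ) :
    enc M A ∪ enc M B = enc M (fun i => A i ∪ B i) := by
  ext y
  rw [mem_union, mem_enc, mem_enc, mem_enc]
  constructor
  · rintro (⟨i, e, he, rfl⟩ | ⟨i, e, he, rfl⟩)
    · exact ⟨i, e, mem_union_left _ he, rfl⟩
    · exact ⟨i, e, mem_union_right _ he, rfl⟩
  · rintro ⟨i, e, he, rfl⟩
    rcases mem_union.1 he with he | he
    · exact Or.inl ⟨i, e, he, rfl⟩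
    · exact Or.inr ⟨i, e, he, rfl⟩

theorem le_of_mem_enc {M n : ℕ} {A : Fin n → Finset ℕ} {y : ℕ} (h : y ∈ enc M A) : M ≤ y := by
  obtain ⟨i, e, _, rfl⟩ := mem_enc.1 h
  omega

theorem enc_injective (M n : ℕ) : Function.Injective (enc M (n := n)) := by
  intro A B h
  funext i
  ext e
  rw [← code_mem_enc (M := M) (A := A), ← code_mem_enc (M := M) (A := B), h]

/-- expectation of a function of one coordinate -/
theorem exp_one {n : ℕ} {K : Finset (Finset ℕ)} (hK : K.Nonempty) (j : Fin n)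
    (a : Finset ℕ → ℝ) :
    ∑ A ∈ Fintype.piFinset (fun _ : Fin n => K), a (A j) =
      (K.card : ℝ) ^ n * ((∑ x ∈ K, a x) / K.card) := by
  have hk : (K.card : ℝ) ≠ 0 := by
    have := hK.card_pos
    positivity
  have h1 := Finset.prod_univ_sum (fun _ : Fin n => K)
    (fun i x => if i = j then a x else (1 : ℝ))
  have h2 : ∀ A : Fin n → Finset ℕ, ∏ i, (if i = j then a (A i) else (1 : ℝ)) = a (A j) := by
    intro A
    rw [Fintype.prod_eq_single j]
    · simp
    · intro x hx; simp [hx]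
  simp only [h2] at h1
  rw [← h1]
  have h3 : ∀ i : Fin n, ∑ x ∈ K, (if i = j then a x else (1 : ℝ)) =
      (K.card : ℝ) * (if i = j then (∑ x ∈ K, a x) / K.card else 1) := by
    intro i
    by_cases hi : i = j
    · simp [hi]; field_simp
    · simp [hi]
  simp only [h3]
  rw [prod_mul_distrib, prod_const, Fintype.prod_eq_single j]
  · simp
  · intro x hx; simp [hx]

/-- expectation of a product of functions of two different coordinates -/
theorem exp_two {n : ℕ} {K : Finset (Finset ℕ)} (hK : K.Nonempty) {j j' : Fin n} (hj : j ≠ j')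
    (a b : Finset ℕ → ℝ) :
    ∑ A ∈ Fintype.piFinset (fun _ : Fin n => K), a (A j) * b (A j') =
      (K.card : ℝ) ^ n * (((∑ x ∈ K, a x) / K.card) * ((∑ x ∈ K, b x) / K.card)) := by
  have hk : (K.card : ℝ) ≠ 0 := by
    have := hK.card_pos
    positivity
  have h1 := Finset.prod_univ_sum (fun _ : Fin n => K)
    (fun i x => if i = j then a x else if i = j' then b x else (1 : ℝ))
  have h2 : ∀ A : Fin n → Finset ℕ,
      ∏ i, (if i = j then a (A i) else if i = j' then b (A i) else (1 : ℝ)) =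
        a (A j) * b (A j') := by
    intro A
    rw [Fintype.prod_eq_mul j j' hj]
    · simp [hj.symm]
    · rintro x ⟨hx, hx'⟩; simp [hx, hx']
  simp only [h2] at h1
  rw [← h1]
  have h3 : ∀ i : Fin n,
      ∑ x ∈ K, (if i = j then a x else if i = j' then b x else (1 : ℝ)) =
      (K.card : ℝ) * (if i = j then (∑ x ∈ K, a x) / K.card else
        if i = j' then (∑ x ∈ K, b x) / K.card else 1) := by
    intro i
    by_cases hi : i = j
    · simp [hi]; field_simp
    · by_cases hi' : i = j'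
      · simp [hi', hj.symm]; field_simp
      · simp [hi, hi']
  simp only [h3]
  rw [prod_mul_distrib, prod_const, Fintype.prod_eq_mul j j' hj]
  · simp [hj.symm]
  · rintro x ⟨hx, hx'⟩; simp [hx, hx']

/-- the value of the largest frequency -/
theorem exists_const (G : Finset (Finset ℕ)) (c : ℝ) (h : ∀ v, (cnt G v : ℝ) < c * G.card) :
    ∃ c1 : ℝ, 0 ≤ c1 ∧ c1 < c ∧ ∀ v, (cnt G v : ℝ) ≤ c1 * G.card := by
  have hb : BddAbove (Set.range (cnt G)) := by
    refine ⟨G.card, ?_⟩
    rintro _ ⟨v, rfl⟩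
    exact card_filter_le _ _
  obtain ⟨v, hv⟩ := Nat.sSup_mem (Set.range_nonempty (cnt G)) hb
  have hmax : ∀ w, cnt G w ≤ cnt G v := by
    intro w
    rw [hv]
    exact le_csSup hb ⟨w, rfl⟩
  have hg : (0 : ℝ) < G.card := by
    rcases Nat.eq_zero_or_pos G.card with h0 | h0
    · exfalso
      have := h 0
      rw [h0] at this
      simp at this
      have h1 : (0 : ℝ) ≤ cnt G 0 := Nat.cast_nonneg _
      linarith
    · exact_mod_cast h0
  refine ⟨cnt G v / G.card, by positivity, ?_, ?_⟩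
  · rw [div_lt_iff₀ hg]
    exact h v
  · intro w
    rw [div_mul_cancel₀ _ hg.ne']
    exact_mod_cast hmax w

/-- Powers: dense family with a rare absorbing subfamily. -/
theorem powers {G : Finset (Finset ℕ)} (hG : UC G) (hne : G ≠ {∅}) (hne' : G.Nonempty)
    {c1 : ℝ} (h0 : 0 ≤ c1) (h1 : c1 < 1) (hc : ∀ v, (cnt G v : ℝ) ≤ c1 * G.card) {η : ℝ}
    (hη : 0 < η) (s : ℕ) :
    ∃ K H : Finset (Finset ℕ), UC K ∧ H ⊆ K ∧ (∀ X ∈ H, ∀ Y ∈ K, X ∪ Y ∈ H) ∧ H.Nonempty ∧
      (∀ X ∈ H, s < X.card) ∧ (H.card : ℝ) ≤ η * K.card ∧ ∀ v, (cnt K v : ℝ) ≤ c1 * K.card := by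
  obtain ⟨e, he⟩ : ∃ e, (G.filter (fun S => e ∈ S)).Nonempty := by
    by_contra hcon
    push Not at hcon
    apply hne
    apply eq_singleton_iff_unique_mem.2
    have key : ∀ S ∈ G, S = ∅ := by
      intro S hS
      rw [eq_empty_iff_forall_notMem]
      intro x hx
      have := hcon x
      rw [filter_eq_empty_iff] at this
      exact this hS hx
    obtain ⟨S, hS⟩ := hne'
    exact ⟨(key S hS) ▸ hS, key⟩
  have hg : (0 : ℝ) < G.card := by exact_mod_cast hne'.card_pos
  obtain ⟨r, hr⟩ := exists_pow_lt_of_lt_one hη h1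
  set r' := r + (s + 1) with hr'
  set K := (Fintype.piFinset (fun _ : Fin r' => G)).image (enc 0) with hK
  set H := (Fintype.piFinset (fun _ : Fin r' => G.filter (fun S => e ∈ S))).image (enc 0) with hH
  have hKc : K.card = G.card ^ r' := by
    rw [hK, card_image_of_injective _ (enc_injective 0 r'), Fintype.card_piFinset_const]
  have hHc : H.card = (cnt G e) ^ r' := by
    rw [hH, card_image_of_injective _ (enc_injective 0 r'), Fintype.card_piFinset_const]
    rfl
  refine ⟨K, H, ?_, ?_, ?_, ?_, ?_, ?_, ?_⟩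
  · intro X hX Y hY
    rw [hK, mem_image] at hX hY ⊢
    obtain ⟨A, hA, rfl⟩ := hX
    obtain ⟨B, hB, rfl⟩ := hY
    rw [Fintype.mem_piFinset] at hA hB
    exact ⟨fun i => A i ∪ B i, Fintype.mem_piFinset.2 fun i => hG _ (hA i) _ (hB i),
      (enc_union A B).symm⟩
  · apply image_subset_image
    intro A hA
    rw [Fintype.mem_piFinset] at hA ⊢
    exact fun i => (mem_filter.1 (hA i)).1
  · intro X hX Y hY
    rw [hH, mem_image] at hX ⊢
    rw [hK, mem_image] at hY
    obtain ⟨A, hA, rfl⟩ := hX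
    obtain ⟨B, hB, rfl⟩ := hY
    rw [Fintype.mem_piFinset] at hA hB
    refine ⟨fun i => A i ∪ B i, Fintype.mem_piFinset.2 fun i => ?_, (enc_union A B).symm⟩
    have := mem_filter.1 (hA i)
    exact mem_filter.2 ⟨hG _ this.1 _ (hB i), mem_union_left _ this.2⟩
  · obtain ⟨S, hS⟩ := he
    exact ⟨_, mem_image_of_mem _ (Fintype.mem_piFinset.2 (fun _ => hS) :
      (fun _ : Fin r' => S) ∈ _)⟩
  · intro X hX
    rw [hH, mem_image] at hX
    obtain ⟨A, hA, rfl⟩ := hX
    rw [Fintype.mem_piFinset] at hA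
    have h2 : (univ : Finset (Fin r')).image (fun i : Fin r' => 0 + Nat.pair i e) ⊆ enc 0 A := by
      intro y hy
      obtain ⟨i, _, rfl⟩ := mem_image.1 hy
      exact code_mem_enc.2 (mem_filter.1 (hA i)).2
    have h3 := card_le_card h2
    rw [card_image_of_injective, card_univ, Fintype.card_fin] at h3
    · omega
    · intro i j hij
      have h4 : 0 + Nat.pair i e = 0 + Nat.pair j e := hij
      have h5 : Nat.pair i e = Nat.pair j e := by omega
      rw [Nat.pair_eq_pair] at h5
      exact Fin.ext h5.1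
  · rw [hKc, hHc]
    push_cast
    have h2 : (cnt G e : ℝ) ^ r' ≤ (c1 * G.card) ^ r' :=
      pow_le_pow_left₀ (Nat.cast_nonneg _) (hc e) _
    have h3 : c1 ^ r' ≤ η := by
      have : c1 ^ r' ≤ c1 ^ r := pow_le_pow_of_le_one h0 h1.le (Nat.le_add_right r (s + 1))
      linarith
    calc (cnt G e : ℝ) ^ r' ≤ (c1 * G.card) ^ r' := h2
      _ = c1 ^ r' * (G.card : ℝ) ^ r' := mul_pow _ _ _
      _ ≤ η * (G.card : ℝ) ^ r' := mul_le_mul_of_nonneg_right h3 (by positivity)
  · intro v
    by_cases hv : ∃ i : Fin r', ∃ f : ℕ, 0 + Nat.pair i f = v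
    · obtain ⟨i, f, rfl⟩ := hv
      have e1 : cnt K (0 + Nat.pair i f) =
          ((Fintype.piFinset (fun _ : Fin r' => G)).filter (fun A => f ∈ A i)).card := by
        unfold cnt
        rw [hK, filter_image, card_image_of_injective _ (enc_injective 0 r')]
        congr 1
        apply filter_congr
        intro A _
        exact code_mem_enc
      have e2 := exp_one hne' i (fun S => if f ∈ S then (1 : ℝ) else 0)
      rw [sum_boole, sum_boole] at e2
      rw [e1]
      rw [e2, hKc]
      push_cast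
      have e3 : ((G.filter (fun S => f ∈ S)).card : ℝ) / G.card ≤ c1 := by
        rw [div_le_iff₀ hg]
        exact hc f
      calc (G.card : ℝ) ^ r' * (((G.filter (fun S => f ∈ S)).card : ℝ) / G.card)
          ≤ (G.card : ℝ) ^ r' * c1 := mul_le_mul_of_nonneg_left e3 (by positivity)
        _ = c1 * (G.card : ℝ) ^ r' := mul_comm _ _
    · have : cnt K v = 0 := by
        unfold cnt
        rw [card_eq_zero, filter_eq_empty_iff]
        intro X hX hvX
        rw [hK, mem_image] at hX
        obtain ⟨A, _, rfl⟩ := hX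
        obtain ⟨i, f, _, hf⟩ := mem_enc.1 hvX
        exact hv ⟨i, f, hf⟩
      rw [this]
      simp
      positivity

end Pool.Agent.U86.UCD
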