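import Pool.Agent.U86.UCD.Basic

/-!
# Union-closed families: gluing the fibres of one family along rare events in another one
-/

set_option autoImplicit false

namespace Pool.Agent.U86.UCD

open Finset

/-- traces on `N` -/
def tr (N : Finset ℕ) (F₀ : Finset (Finset ℕ)) : Finset (Finset ℕ) := F₀.image (fun S => S ∩ N)

/-- the traces on `N` of the members with the given part outside `N` -/
def fib (N : Finset ℕ) (F₀ : Finset (Finset ℕ)) (U : Finset ℕ) : Finset (Finset ℕ) :=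
  (F₀.filter (fun S => S \ N = U)).image (fun S => S ∩ N)

/-- the rare events that hold -/
def idx (H : Finset (Finset ℕ)) {n : ℕ} (A : Fin n → Finset ℕ) : Finset (Fin n) :=
  univ.filter (fun i => A i ∈ H)

/-- the fibre used -/
def BB (N : Finset ℕ) (F₀ : Finset (Finset ℕ)) {n : ℕ} (τ : Fin n → Finset ℕ)
    (S : Finset (Fin n)) : Finset (Finset ℕ) :=
  if S.card ≤ 1 then S.biUnion (fun i => fib N F₀ (τ i)) else tr N F₀

/-- pairs -/
def PP (N : Finset ℕ) (F₀ K H : Finset (Finset ℕ)) {n : ℕ} (τ : Fin n → Finset ℕ) :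
    Finset ((Fin n → Finset ℕ) × Finset ℕ) :=
  (Fintype.piFinset (fun _ : Fin n => K) ×ˢ tr N F₀).filter
    (fun p => p.2 ∈ BB N F₀ τ (idx H p.1))

/-- the new family -/
def big (M : ℕ) (N : Finset ℕ) (F₀ K H : Finset (Finset ℕ)) {n : ℕ} (τ : Fin n → Finset ℕ) :
    Finset (Finset ℕ) :=
  (F₀.filter (fun S => S ⊆ N)) ∪ (PP N F₀ K H τ).image (fun p => p.2 ∪ enc M p.1)

variable {M : ℕ} {N : Finset ℕ} {F₀ K H : Finset (Finset ℕ)} {n : ℕ} {τ : Fin n → Finset ℕ}

theorem mem_fib {U B : Finset ℕ} : B ∈ fib N F₀ U ↔ B ⊆ N ∧ ∃ S ∈ F₀, S \ N = U ∧ S ∩ N = B := by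
  unfold fib
  rw [mem_image]
  constructor
  · rintro ⟨S, hS, rfl⟩
    rw [mem_filter] at hS
    exact ⟨inter_subset_right, S, hS.1, hS.2, rfl⟩
  · rintro ⟨_, S, hS, h1, h2⟩
    exact ⟨S, mem_filter.2 ⟨hS, h1⟩, h2⟩

theorem fib_subset_tr (U : Finset ℕ) : fib N F₀ U ⊆ tr N F₀ :=
  image_subset_image (filter_subset _ _)

theorem BB_subset_tr (S : Finset (Fin n)) : BB N F₀ τ S ⊆ tr N F₀ := by
  unfold BB
  split_ifs
  · intro B hB
    obtain ⟨i, _, hi⟩ := mem_biUnion.1 hB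
    exact fib_subset_tr _ hi
  · exact Subset.rfl

theorem tr_UC (h : UC F₀) : UC (tr N F₀) := by
  intro X hX Y hY
  unfold tr at hX hY ⊢
  rw [mem_image] at hX hY ⊢
  obtain ⟨A, hA, rfl⟩ := hX
  obtain ⟨B, hB, rfl⟩ := hY
  exact ⟨A ∪ B, h A hA B hB, union_inter_distrib_right _ _ _⟩

theorem fib_UC (h : UC F₀) (U : Finset ℕ) : UC (fib N F₀ U) := by
  intro X hX Y hY
  rw [mem_fib] at hX hY ⊢
  obtain ⟨hXN, A, hA, hA1, hA2⟩ := hX
  obtain ⟨hYN, B, hB, hB1, hB2⟩ := hY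
  refine ⟨union_subset hXN hYN, A ∪ B, h A hA B hB, ?_, ?_⟩
  · rw [union_sdiff_distrib, hA1, hB1, union_self]
  · rw [union_inter_distrib_right, hA2, hB2]

theorem fib_absorb (h : UC F₀) {U X Y : Finset ℕ} (hX : X ∈ F₀) (hXN : X ⊆ N)
    (hY : Y ∈ fib N F₀ U) : X ∪ Y ∈ fib N F₀ U := by
  rw [mem_fib] at hY ⊢
  obtain ⟨hYN, B, hB, hB1, hB2⟩ := hY
  refine ⟨union_subset hXN hYN, X ∪ B, h X hX B hB, ?_, ?_⟩
  · rw [union_sdiff_distrib, hB1, sdiff_eq_empty_iff_subset.2 hXN, empty_union]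
  · rw [union_inter_distrib_right, hB2, inter_eq_left.2 hXN]

theorem mem_tr_of {X : Finset ℕ} (hX : X ∈ F₀) (hXN : X ⊆ N) : X ∈ tr N F₀ :=
  mem_image.2 ⟨X, hX, inter_eq_left.2 hXN⟩

theorem BB_absorb (h : UC F₀) {S : Finset (Fin n)} {X Y : Finset ℕ} (hX : X ∈ F₀) (hXN : X ⊆ N)
    (hY : Y ∈ BB N F₀ τ S) : X ∪ Y ∈ BB N F₀ τ S := by
  unfold BB at hY ⊢
  split_ifs at hY ⊢
  · obtain ⟨i, hi, hY⟩ := mem_biUnion.1 hY
    exact mem_biUnion.2 ⟨i, hi, fib_absorb h hX hXN hY⟩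
  · exact tr_UC h X (mem_tr_of hX hXN) Y hY

theorem BB_union (h : UC F₀) {S S' S'' : Finset (Fin n)} (h1 : S ⊆ S'') (h2 : S' ⊆ S'')
    {X Y : Finset ℕ} (hX : X ∈ BB N F₀ τ S) (hY : Y ∈ BB N F₀ τ S') :
    X ∪ Y ∈ BB N F₀ τ S'' := by
  by_cases hc : S''.card ≤ 1
  · have hcS : S.card ≤ 1 := (card_le_card h1).trans hc
    have hcS' : S'.card ≤ 1 := (card_le_card h2).trans hc
    unfold BB at hX hY ⊢
    rw [if_pos hcS] at hX
    rw [if_pos hcS'] at hY
    rw [if_pos hc]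
    obtain ⟨i, hi, hX⟩ := mem_biUnion.1 hX
    obtain ⟨j, hj, hY⟩ := mem_biUnion.1 hY
    have hij : i = j := (card_le_one.1 hc) i (h1 hi) j (h2 hj)
    subst hij
    exact mem_biUnion.2 ⟨i, h1 hi, fib_UC h _ X hX Y hY⟩
  · have e : BB N F₀ τ S'' = tr N F₀ := by
      unfold BB
      rw [if_neg hc]
    rw [e]
    exact tr_UC h X (BB_subset_tr _ hX) Y (BB_subset_tr _ hY)

theorem mem_PP {p : (Fin n → Finset ℕ) × Finset ℕ} :
    p ∈ PP N F₀ K H τ ↔ (∀ i, p.1 i ∈ K) ∧ p.2 ∈ BB N F₀ τ (idx H p.1) := by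
  unfold PP
  rw [mem_filter, mem_product, Fintype.mem_piFinset]
  constructor
  · rintro ⟨⟨h1, _⟩, h2⟩
    exact ⟨h1, h2⟩
  · rintro ⟨h1, h2⟩
    exact ⟨⟨h1, BB_subset_tr _ h2⟩, h2⟩

theorem big_UC (h : UC F₀) (hK : UC K) (hH : ∀ X ∈ H, ∀ Y ∈ K, X ∪ Y ∈ H) :
    UC (big M N F₀ K H τ) := by
  have hidx : ∀ A B : Fin n → Finset ℕ, (∀ i, A i ∈ K) → (∀ i, B i ∈ K) →
      idx H A ⊆ idx H (fun i => A i ∪ B i) ∧ idx H B ⊆ idx H (fun i => A i ∪ B i) := by
    intro A B hA hB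
    constructor
    · intro i hi
      unfold idx at hi ⊢
      rw [mem_filter] at hi ⊢
      exact ⟨mem_univ _, hH _ hi.2 _ (hB i)⟩
    · intro i hi
      unfold idx at hi ⊢
      rw [mem_filter] at hi ⊢
      refine ⟨mem_univ _, ?_⟩
      show A i ∪ B i ∈ H
      rw [union_comm]
      exact hH _ hi.2 _ (hA i)
  intro X hX Y hY
  unfold big at hX hY ⊢
  rw [mem_union] at hX hY ⊢
  rcases hX with hX | hX <;> rcases hY with hY | hY
  · left
    rw [mem_filter] at hX hY ⊢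
    exact ⟨h X hX.1 Y hY.1, union_subset hX.2 hY.2⟩
  · right
    rw [mem_image] at hY ⊢
    obtain ⟨⟨A, B⟩, hp, rfl⟩ := hY
    rw [mem_PP] at hp
    rw [mem_filter] at hX
    refine ⟨(A, X ∪ B), mem_PP.2 ⟨hp.1, BB_absorb h hX.1 hX.2 hp.2⟩, ?_⟩
    exact union_assoc _ _ _
  · right
    rw [mem_image] at hX ⊢
    obtain ⟨⟨A, B⟩, hp, rfl⟩ := hX
    rw [mem_PP] at hp
    rw [mem_filter] at hY
    refine ⟨(A, Y ∪ B), mem_PP.2 ⟨hp.1, BB_absorb h hY.1 hY.2 hp.2⟩, ?_⟩
    show Y ∪ B ∪ enc M A = B ∪ enc M A ∪ Y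
    rw [union_comm _ Y, union_assoc]
  · right
    rw [mem_image] at hX hY ⊢
    obtain ⟨⟨A, B⟩, hp, rfl⟩ := hX
    obtain ⟨⟨A', B'⟩, hp', rfl⟩ := hY
    rw [mem_PP] at hp hp'
    obtain ⟨i1, i2⟩ := hidx A A' hp.1 hp'.1
    refine ⟨(fun i => A i ∪ A' i, B ∪ B'), mem_PP.2
      ⟨fun i => hK _ (hp.1 i) _ (hp'.1 i), BB_union h i1 i2 hp.2 hp'.2⟩, ?_⟩
    show B ∪ B' ∪ enc M (fun i => A i ∪ A' i) = B ∪ enc M A ∪ (B' ∪ enc M A')
    rw [← enc_union]
    ext x
    simp only [mem_union]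
    tauto

theorem big_inside {S : Finset ℕ} (hS : S ∈ F₀) (hSN : S ⊆ N) : S ∈ big M N F₀ K H τ :=
  mem_union_left _ (mem_filter.2 ⟨hS, hSN⟩)

theorem tr_subset {B : Finset ℕ} (hB : B ∈ tr N F₀) : B ⊆ N := by
  unfold tr at hB
  obtain ⟨S, _, rfl⟩ := mem_image.1 hB
  exact inter_subset_right

theorem big_trace (hM : ∀ x ∈ N, x < M) {S : Finset ℕ} (hS : S ∈ big M N F₀ K H τ) :
    S ∩ N ∈ tr N F₀ := by
  unfold big at hS
  rw [mem_union] at hS
  rcases hS with hS | hS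
  · rw [mem_filter] at hS
    exact mem_image_of_mem _ hS.1
  · rw [mem_image] at hS
    obtain ⟨⟨A, B⟩, hp, rfl⟩ := hS
    rw [mem_PP] at hp
    have hB := BB_subset_tr _ hp.2
    have hBN := tr_subset hB
    have e : (B ∪ enc M A) ∩ N = B := by
      ext x
      rw [mem_inter, mem_union]
      constructor
      · rintro ⟨hx | hx, hxN⟩
        · exact hx
        · have := le_of_mem_enc hx
          have := hM x hxN
          omega
      · intro hx
        exact ⟨Or.inl hx, hBN hx⟩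
    show (B ∪ enc M A) ∩ N ∈ tr N F₀
    rw [e]
    exact hB

theorem phi_inj (hM : ∀ x ∈ N, x < M) :
    Set.InjOn (fun p : (Fin n → Finset ℕ) × Finset ℕ => p.2 ∪ enc M p.1)
      (↑(PP N F₀ K H τ) : Set ((Fin n → Finset ℕ) × Finset ℕ)) := by
  rintro ⟨A, B⟩ hp ⟨A', B'⟩ hp' hh
  rw [mem_coe, mem_PP] at hp hp'
  have hB : B ⊆ N := tr_subset (BB_subset_tr _ hp.2)
  have hB' : B' ⊆ N := tr_subset (BB_subset_tr _ hp'.2)
  have hh' : B ∪ enc M A = B' ∪ enc M A' := hh
  have e1 : B = B' := by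
    ext x
    constructor
    · intro hx
      have h1 : x ∈ B' ∪ enc M A' := by rw [← hh']; exact mem_union_left _ hx
      rcases mem_union.1 h1 with h1 | h1
      · exact h1
      · have := le_of_mem_enc h1
        have := hM x (hB hx)
        omega
    · intro hx
      have h1 : x ∈ B ∪ enc M A := by rw [hh']; exact mem_union_left _ hx
      rcases mem_union.1 h1 with h1 | h1
      · exact h1
      · have := le_of_mem_enc h1
        have := hM x (hB' hx)
        omega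
  have e2 : A = A' := by
    funext i
    ext e
    rw [← code_mem_enc (M := M) (A := A), ← code_mem_enc (M := M) (A := A')]
    constructor
    · intro hx
      have h1 : M + Nat.pair i e ∈ B' ∪ enc M A' := by rw [← hh']; exact mem_union_right _ hx
      rcases mem_union.1 h1 with h1 | h1
      · have := hM _ (hB' h1)
        omega
      · exact h1
    · intro hx
      have h1 : M + Nat.pair i e ∈ B ∪ enc M A := by rw [hh']; exact mem_union_right _ hx
      rcases mem_union.1 h1 with h1 | h1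
      · have := hM _ (hB h1)
        omega
      · exact h1
  rw [e1, e2]

theorem card_big_ge (hM : ∀ x ∈ N, x < M) :
    (PP N F₀ K H τ).card ≤ (big M N F₀ K H τ).card := by
  rw [← card_image_of_injOn (phi_inj (K := K) (H := H) (F₀ := F₀) (τ := τ) hM)]
  exact card_le_card subset_union_right

theorem card_big_le :
    (big M N F₀ K H τ).card ≤ F₀.card + (PP N F₀ K H τ).card := by
  refine (card_union_le _ _).trans (Nat.add_le_add (card_filter_le _ _) card_image_le)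

theorem cnt_big_le (y : ℕ) :
    cnt (big M N F₀ K H τ) y ≤ (F₀.filter (fun S => S ⊆ N ∧ y ∈ S)).card +
      ((PP N F₀ K H τ).filter (fun p => y ∈ p.2 ∪ enc M p.1)).card := by
  unfold cnt big
  rw [filter_union, filter_filter, filter_image]
  exact (card_union_le _ _).trans (Nat.add_le_add le_rfl card_image_le)

/-- a fibre is as large as the set of the members it comes from -/
theorem card_fib (U : Finset ℕ) : (fib N F₀ U).card = (F₀.filter (fun S => S \ N = U)).card := by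
  unfold fib
  apply card_image_of_injOn
  intro S hS T hT hST
  rw [mem_coe, mem_filter] at hS hT
  have h : S ∩ N = T ∩ N := hST
  rw [← sdiff_union_inter S N, ← sdiff_union_inter T N, hS.2, hT.2, h]

theorem card_fib_filter {x : ℕ} (hx : x ∈ N) (U : Finset ℕ) :
    ((fib N F₀ U).filter (fun B => x ∈ B)).card =
      ((F₀.filter (fun S => x ∈ S)).filter (fun S => S \ N = U)).card := by
  unfold fib
  rw [filter_image]
  have e : (F₀.filter (fun S => S \ N = U)).filter (fun S => x ∈ S ∩ N) =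
      (F₀.filter (fun S => x ∈ S)).filter (fun S => S \ N = U) := by
    ext S
    simp only [mem_filter, mem_inter]
    tauto
  rw [e]
  apply card_image_of_injOn
  intro S hS T hT hST
  rw [mem_coe, mem_filter] at hS hT
  have h : S ∩ N = T ∩ N := hST
  rw [← sdiff_union_inter S N, ← sdiff_union_inter T N, hS.2, hT.2, h]

theorem sum_card_fib : ∑ U ∈ F₀.image (fun S => S \ N), (fib N F₀ U).card = F₀.card := by
  rw [card_eq_sum_card_image (fun S => S \ N) F₀]
  exact sum_congr rfl fun U _ => card_fib U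

theorem sum_card_fib_filter {x : ℕ} (hx : x ∈ N) :
    ∑ U ∈ F₀.image (fun S => S \ N), ((fib N F₀ U).filter (fun B => x ∈ B)).card =
      cnt F₀ x := by
  unfold cnt
  rw [card_eq_sum_card_fiberwise (f := fun S => S \ N) (t := F₀.image (fun S => S \ N))]
  · exact sum_congr rfl fun U _ => card_fib_filter hx U
  · intro S hS
    rw [mem_coe, mem_filter] at hS
    exact mem_coe.2 (mem_image_of_mem _ hS.1)

/-- the repetition of the fibres -/
theorem exists_tau (J : Finset (Finset ℕ)) (R : ℕ) :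
    ∃ τ : Fin (J.card * R) → Finset ℕ, ∀ c : Finset ℕ → ℝ,
      ∑ i, c (τ i) = R * ∑ U ∈ J, c U := by
  refine ⟨fun i => (J.equivFin.symm (finProdFinEquiv.symm i).1 : Finset ℕ), fun c => ?_⟩
  rw [← Equiv.sum_comp finProdFinEquiv
    (fun i => c ((J.equivFin.symm (finProdFinEquiv.symm i).1 : Finset ℕ)))]
  simp only [Equiv.symm_apply_apply]
  rw [Fintype.sum_prod_type]
  simp only [sum_const, card_univ, Fintype.card_fin, nsmul_eq_mul]
  rw [← mul_sum, ← sum_coe_sort J c, ← Equiv.sum_comp J.equivFin.symm]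

end Pool.Agent.U86.UCD
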