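import Pool.Agent.U86.UCD.Build

/-!
# Union-closed families: counting the members of the glued family
-/

set_option autoImplicit false

namespace Pool.Agent.U86.UCD

open Finset

variable {M : ℕ} {N : Finset ℕ} {F₀ K H : Finset (Finset ℕ)} {n : ℕ} {τ : Fin n → Finset ℕ}

/-- number of ordered pairs of different members -/
def prs (S : Finset (Fin n)) : ℝ := (S.offDiag.card : ℝ)

theorem prs_nonneg (S : Finset (Fin n)) : 0 ≤ prs S := Nat.cast_nonneg _

theorem card_le_prs {S : Finset (Fin n)} (h : ¬ S.card ≤ 1) : (S.card : ℝ) ≤ prs S := by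
  unfold prs
  rw [offDiag_card]
  have : S.card ≤ S.card * S.card - S.card := by
    have h2 : 2 ≤ S.card := by omega
    have : 2 * S.card ≤ S.card * S.card := Nat.mul_le_mul_right _ h2
    omega
  exact_mod_cast this

theorem card_tr_le : (tr N F₀).card ≤ F₀.card := card_image_le

theorem card_fib_le (U : Finset ℕ) : (fib N F₀ U).card ≤ F₀.card :=
  (card_le_card (fib_subset_tr U)).trans card_tr_le

theorem BB_lower (S : Finset (Fin n)) :
    ∑ i ∈ S, ((fib N F₀ (τ i)).card : ℝ) - F₀.card * prs S ≤ ((BB N F₀ τ S).card : ℝ) := by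
  by_cases h : S.card ≤ 1
  · have h1 : ∑ i ∈ S, ((fib N F₀ (τ i)).card : ℝ) = ((BB N F₀ τ S).card : ℝ) := by
      unfold BB
      rw [if_pos h]
      rcases S.eq_empty_or_nonempty with rfl | hne
      · simp
      · obtain ⟨i, rfl⟩ := card_eq_one.1 (le_antisymm h hne.card_pos)
        simp
    rw [h1]
    have : 0 ≤ (F₀.card : ℝ) * prs S := mul_nonneg (Nat.cast_nonneg _) (prs_nonneg S)
    linarith
  · have h1 : ∑ i ∈ S, ((fib N F₀ (τ i)).card : ℝ) ≤ F₀.card * prs S := by
      calc ∑ i ∈ S, ((fib N F₀ (τ i)).card : ℝ) ≤ ∑ _i ∈ S, (F₀.card : ℝ) :=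
            sum_le_sum fun i _ => by exact_mod_cast card_fib_le _
        _ = S.card * F₀.card := by rw [sum_const, nsmul_eq_mul]
        _ ≤ prs S * F₀.card := mul_le_mul_of_nonneg_right (card_le_prs h) (Nat.cast_nonneg _)
        _ = F₀.card * prs S := mul_comm _ _
    have h2 : (0 : ℝ) ≤ ((BB N F₀ τ S).card : ℝ) := Nat.cast_nonneg _
    linarith

theorem BB_upper (P : Finset ℕ → Prop) [DecidablePred P] (S : Finset (Fin n)) :
    (((BB N F₀ τ S).filter P).card : ℝ) ≤
      ∑ i ∈ S, (((fib N F₀ (τ i)).filter P).card : ℝ) + F₀.card * prs S := by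
  by_cases h : S.card ≤ 1
  · have h1 : ∑ i ∈ S, (((fib N F₀ (τ i)).filter P).card : ℝ) =
        (((BB N F₀ τ S).filter P).card : ℝ) := by
      unfold BB
      rw [if_pos h]
      rcases S.eq_empty_or_nonempty with rfl | hne
      · simp
      · obtain ⟨i, rfl⟩ := card_eq_one.1 (le_antisymm h hne.card_pos)
        simp
    rw [h1]
    have : 0 ≤ (F₀.card : ℝ) * prs S := mul_nonneg (Nat.cast_nonneg _) (prs_nonneg S)
    linarith
  · have h1 : (((BB N F₀ τ S).filter P).card : ℝ) ≤ F₀.card := by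
      have := (card_filter_le (BB N F₀ τ S) P).trans
        ((card_le_card (BB_subset_tr (N := N) (F₀ := F₀) (τ := τ) S)).trans card_tr_le)
      exact_mod_cast this
    have h2 : (1 : ℝ) ≤ prs S := by
      have h3 := card_le_prs h
      have h4 : (2 : ℝ) ≤ S.card := by
        have : 2 ≤ S.card := by omega
        exact_mod_cast this
      linarith
    have h3 : (F₀.card : ℝ) ≤ F₀.card * prs S := by
      nlinarith [Nat.cast_nonneg (α := ℝ) F₀.card]
    have h4 : (0 : ℝ) ≤ ∑ i ∈ S, (((fib N F₀ (τ i)).filter P).card : ℝ) :=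
      sum_nonneg fun i _ => Nat.cast_nonneg _
    linarith

/-- the indicator of `H` -/
noncomputable def chi (H : Finset (Finset ℕ)) (X : Finset ℕ) : ℝ := by
  classical exact if X ∈ H then 1 else 0

theorem chi_nonneg (X : Finset ℕ) : 0 ≤ chi H X := by
  unfold chi; split_ifs <;> norm_num

theorem chi_le (X : Finset ℕ) : chi H X ≤ 1 := by
  unfold chi; split_ifs <;> norm_num

theorem sum_chi (hHK : H ⊆ K) : ∑ X ∈ K, chi H X = H.card := by
  unfold chi
  rw [sum_boole]
  congr 2
  rw [filter_mem_eq_inter]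
  exact inter_eq_right.2 hHK

theorem sum_idx (c : Fin n → ℝ) (A : Fin n → Finset ℕ) :
    ∑ i ∈ idx H A, c i = ∑ i, chi H (A i) * c i := by
  unfold idx chi
  rw [sum_filter]
  refine sum_congr rfl fun i _ => ?_
  split_ifs <;> simp

theorem prs_idx (A : Fin n → Finset ℕ) :
    prs (idx H A) = ∑ p ∈ (univ : Finset (Fin n)).offDiag, chi H (A p.1) * chi H (A p.2) := by
  unfold prs
  have h1 : ∀ p : Fin n × Fin n, chi H (A p.1) * chi H (A p.2) =
      if A p.1 ∈ H ∧ A p.2 ∈ H then 1 else 0 := by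
    intro p
    unfold chi
    by_cases h1 : A p.1 ∈ H <;> by_cases h2 : A p.2 ∈ H <;> simp [h1, h2]
  simp only [h1]
  rw [sum_boole]
  congr 2
  ext p
  simp only [mem_offDiag, idx, mem_filter, mem_univ, true_and]
  tauto

/-- mean number of pairs -/
theorem mean_prs (hK : K.Nonempty) (hHK : H ⊆ K) :
    ∑ A ∈ Fintype.piFinset (fun _ : Fin n => K), prs (idx H A) ≤
      (K.card : ℝ) ^ n * ((n : ℝ) ^ 2 * (((H.card : ℝ) / K.card) * ((H.card : ℝ) / K.card))) := by
  simp only [prs_idx]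
  rw [sum_comm]
  have h1 : ∀ p ∈ (univ : Finset (Fin n)).offDiag,
      ∑ A ∈ Fintype.piFinset (fun _ : Fin n => K), chi H (A p.1) * chi H (A p.2) =
      (K.card : ℝ) ^ n * (((H.card : ℝ) / K.card) * ((H.card : ℝ) / K.card)) := by
    intro p hp
    rw [mem_offDiag] at hp
    rw [exp_two hK hp.2.2 (chi H) (chi H), sum_chi hHK]
  rw [sum_congr rfl h1, sum_const, nsmul_eq_mul]
  have h2 : (((univ : Finset (Fin n)).offDiag.card : ℕ) : ℝ) ≤ (n : ℝ) ^ 2 := by
    rw [offDiag_card, card_univ, Fintype.card_fin]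
    have : n * n - n ≤ n ^ 2 := by
      rw [pow_two]; exact Nat.sub_le _ _
    exact_mod_cast this
  have h3 : (0 : ℝ) ≤ (K.card : ℝ) ^ n * (((H.card : ℝ) / K.card) * ((H.card : ℝ) / K.card)) := by
    positivity
  calc (((univ : Finset (Fin n)).offDiag.card : ℕ) : ℝ) *
        ((K.card : ℝ) ^ n * (((H.card : ℝ) / K.card) * ((H.card : ℝ) / K.card)))
      ≤ (n : ℝ) ^ 2 * ((K.card : ℝ) ^ n * (((H.card : ℝ) / K.card) * ((H.card : ℝ) / K.card))) :=
        mul_le_mul_of_nonneg_right h2 h3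
    _ = _ := by ring

/-- mean of a sum over the rare events -/
theorem mean_idx (hK : K.Nonempty) (hHK : H ⊆ K) (c : Fin n → ℝ) :
    ∑ A ∈ Fintype.piFinset (fun _ : Fin n => K), ∑ i ∈ idx H A, c i =
      (K.card : ℝ) ^ n * (((H.card : ℝ) / K.card) * ∑ i, c i) := by
  simp only [sum_idx]
  rw [sum_comm]
  have h1 : ∀ i ∈ (univ : Finset (Fin n)),
      ∑ A ∈ Fintype.piFinset (fun _ : Fin n => K), chi H (A i) * c i =
      (K.card : ℝ) ^ n * (((H.card : ℝ) / K.card) * c i) := by
    intro i _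
    rw [← sum_mul, exp_one hK i (chi H), sum_chi hHK]
    ring
  rw [sum_congr rfl h1, ← mul_sum, ← mul_sum]

/-- the same restricted to the tuples with `e` in the coordinate `j` -/
theorem mean_idx_mem (hK : K.Nonempty) (hHK : H ⊆ K) (c : Fin n → ℝ) (hc : ∀ i, 0 ≤ c i)
    {c1 m : ℝ} (hm : ∀ i, c i ≤ m) (e : ℕ) (h1 : (cnt K e : ℝ) ≤ c1 * K.card) (j : Fin n) :
    ∑ A ∈ (Fintype.piFinset (fun _ : Fin n => K)).filter (fun A => e ∈ A j),
        ∑ i ∈ idx H A, c i ≤
      (K.card : ℝ) ^ n * (((H.card : ℝ) / K.card) * (c1 * ∑ i, c i + m)) := by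
  have hk : (0 : ℝ) < K.card := by exact_mod_cast hK.card_pos
  have hm0 : 0 ≤ m := (hc j).trans (hm j)
  have hc10 : 0 ≤ c1 := by
    by_contra hcon
    push Not at hcon
    have : c1 * (K.card : ℝ) < 0 := mul_neg_of_neg_of_pos hcon hk
    have h2 : (0 : ℝ) ≤ cnt K e := Nat.cast_nonneg _
    linarith
  rw [sum_filter]
  have e1 : ∀ A : Fin n → Finset ℕ, (if e ∈ A j then ∑ i ∈ idx H A, c i else 0) =
      ∑ i, (chi H (A i) * (if e ∈ A j then (1 : ℝ) else 0)) * c i := by
    intro A
    rw [sum_idx]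
    split_ifs <;> simp
  simp only [e1]
  rw [sum_comm]
  have h2 : ∀ i ∈ (univ : Finset (Fin n)),
      ∑ A ∈ Fintype.piFinset (fun _ : Fin n => K),
        (chi H (A i) * (if e ∈ A j then (1 : ℝ) else 0)) * c i ≤
      (K.card : ℝ) ^ n * (((H.card : ℝ) / K.card) * (c1 * c i + if i = j then m else 0)) := by
    intro i _
    rw [← sum_mul]
    by_cases hij : i = j
    · subst hij
      have h3 : ∑ A ∈ Fintype.piFinset (fun _ : Fin n => K),
          chi H (A i) * (if e ∈ A i then (1 : ℝ) else 0) ≤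
          (K.card : ℝ) ^ n * ((H.card : ℝ) / K.card) := by
        rw [← sum_chi hHK, ← exp_one hK i (chi H)]
        apply sum_le_sum
        intro A _
        have := chi_nonneg (H := H) (A i)
        split_ifs
        · rw [mul_one]
        · rw [mul_zero]; exact this
      rw [if_pos rfl]
      have h4 : (0 : ℝ) ≤ (K.card : ℝ) ^ n * ((H.card : ℝ) / K.card) := by positivity
      calc (∑ A ∈ Fintype.piFinset (fun _ : Fin n => K),
            chi H (A i) * (if e ∈ A i then (1 : ℝ) else 0)) * c i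
          ≤ (K.card : ℝ) ^ n * ((H.card : ℝ) / K.card) * c i :=
            mul_le_mul_of_nonneg_right h3 (hc i)
        _ ≤ (K.card : ℝ) ^ n * ((H.card : ℝ) / K.card) * (c1 * c i + m) := by
            apply mul_le_mul_of_nonneg_left _ h4
            have := mul_nonneg hc10 (hc i)
            have := hm i
            linarith
        _ = _ := by ring
    · rw [if_neg hij, add_zero, exp_two hK hij (chi H) (fun X => if e ∈ X then (1 : ℝ) else 0),
        sum_chi hHK, sum_boole]
      have h3 : ((K.filter (fun X => e ∈ X)).card : ℝ) / K.card ≤ c1 := by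
        rw [div_le_iff₀ hk]
        exact h1
      have h4 : (0 : ℝ) ≤ (K.card : ℝ) ^ n * ((H.card : ℝ) / K.card) * c i := by
        have := hc i
        positivity
      calc (K.card : ℝ) ^ n * (((H.card : ℝ) / K.card) *
            (((K.filter (fun X => e ∈ X)).card : ℝ) / K.card)) * c i
          = ((K.card : ℝ) ^ n * ((H.card : ℝ) / K.card) * c i) *
            (((K.filter (fun X => e ∈ X)).card : ℝ) / K.card) := by ring
        _ ≤ ((K.card : ℝ) ^ n * ((H.card : ℝ) / K.card) * c i) * c1 :=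
            mul_le_mul_of_nonneg_left h3 h4
        _ = _ := by ring
  refine (sum_le_sum h2).trans (le_of_eq ?_)
  rw [← mul_sum, ← mul_sum, sum_add_distrib, ← mul_sum, Finset.sum_ite_eq' univ j]
  simp

/-- pairs as a sum -/
theorem card_PP_filter (Q : (Fin n → Finset ℕ) → Prop) [DecidablePred Q] (P : Finset ℕ → Prop)
    [DecidablePred P] :
    (((PP N F₀ K H τ).filter (fun p => Q p.1 ∧ P p.2)).card : ℝ) =
      ∑ A ∈ (Fintype.piFinset (fun _ : Fin n => K)).filter Q,
        (((BB N F₀ τ (idx H A)).filter P).card : ℝ) := by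
  have h1 : ((PP N F₀ K H τ).filter (fun p => Q p.1 ∧ P p.2)).card =
      ∑ A ∈ (Fintype.piFinset (fun _ : Fin n => K)).filter Q,
        (((PP N F₀ K H τ).filter (fun p => Q p.1 ∧ P p.2)).filter (fun p => p.1 = A)).card := by
    apply card_eq_sum_card_fiberwise
    intro p hp
    rw [mem_coe, mem_filter, mem_PP] at hp
    exact mem_coe.2 (mem_filter.2 ⟨Fintype.mem_piFinset.2 hp.1.1, hp.2.1⟩)
  rw [h1]
  push_cast
  refine sum_congr rfl fun A hA => ?_
  congr 1
  rw [mem_filter, Fintype.mem_piFinset] at hA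
  apply card_bij (fun p _ => p.2)
  · intro p hp
    rw [mem_filter, mem_filter, mem_PP] at hp
    obtain ⟨⟨⟨h2, h3⟩, h4, h5⟩, h6⟩ := hp
    rw [h6] at h3
    exact mem_filter.2 ⟨h3, h5⟩
  · rintro ⟨a, b⟩ hp ⟨a', b'⟩ hp' hh
    rw [mem_filter] at hp hp'
    have e1 : a = A := hp.2
    have e2 : a' = A := hp'.2
    have e3 : b = b' := hh
    rw [e1, e2, e3]
  · intro B hB
    rw [mem_filter] at hB
    refine ⟨(A, B), ?_, rfl⟩
    rw [mem_filter, mem_filter, mem_PP]
    exact ⟨⟨⟨hA.1, hB.1⟩, hA.2, hB.2⟩, rfl⟩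

end Pool.Agent.U86.UCD
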