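import Pool.Agent.U86.UCD.Count

/-!
# Union-closed families: the glued family has no frequent element
-/

set_option autoImplicit false

namespace Pool.Agent.U86.UCD

open Finset

variable {M : ℕ} {N : Finset ℕ} {F₀ K H : Finset (Finset ℕ)} {n : ℕ} {τ : Fin n → Finset ℕ}

/-- the total weight of one rare event -/
noncomputable def wt (K H : Finset (Finset ℕ)) (n : ℕ) : ℝ :=
  (K.card : ℝ) ^ n * ((H.card : ℝ) / K.card)

theorem wt_nonneg : 0 ≤ wt K H n := by unfold wt; positivity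

theorem one_le_wt (hn : 1 ≤ n) (hH : H.Nonempty) (hK : K.Nonempty) : 1 ≤ wt K H n := by
  have hk1 : (1 : ℝ) ≤ K.card := by exact_mod_cast hK.card_pos
  have hh1 : (1 : ℝ) ≤ H.card := by exact_mod_cast hH.card_pos
  have h1 : (K.card : ℝ) ≤ (K.card : ℝ) ^ n := by
    calc (K.card : ℝ) = (K.card : ℝ) ^ 1 := (pow_one _).symm
      _ ≤ (K.card : ℝ) ^ n := pow_le_pow_right₀ hk1 hn
  have h2 : (0 : ℝ) ≤ (H.card : ℝ) / K.card := by positivity
  unfold wt
  calc (1 : ℝ) ≤ H.card := hh1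
    _ = (K.card : ℝ) * ((H.card : ℝ) / K.card) := by field_simp
    _ ≤ _ := mul_le_mul_of_nonneg_right h1 h2

theorem sum_fib {R : ℕ} (hτ : ∀ c : Finset ℕ → ℝ, ∑ i, c (τ i) =
    R * ∑ U ∈ F₀.image (fun S => S \ N), c U) :
    ∑ i, (((fib N F₀ (τ i)).card : ℕ) : ℝ) = R * F₀.card := by
  rw [hτ (fun U => (((fib N F₀ U).card : ℕ) : ℝ))]
  congr 1
  exact_mod_cast sum_card_fib (N := N) (F₀ := F₀)

theorem sum_fib_x {R : ℕ} (hτ : ∀ c : Finset ℕ → ℝ, ∑ i, c (τ i) =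
    R * ∑ U ∈ F₀.image (fun S => S \ N), c U) {x : ℕ} (hx : x ∈ N) :
    ∑ i, ((((fib N F₀ (τ i)).filter (fun B => x ∈ B)).card : ℕ) : ℝ) = R * cnt F₀ x := by
  rw [hτ (fun U => ((((fib N F₀ U).filter (fun B => x ∈ B)).card : ℕ) : ℝ))]
  congr 1
  exact_mod_cast sum_card_fib_filter (F₀ := F₀) hx

theorem prs_bound (hK : K.Nonempty) (hHK : H ⊆ K)
    (hρ : (n : ℝ) ^ 2 * ((H.card : ℝ) / K.card) ≤ 1) :
    F₀.card * ∑ A ∈ Fintype.piFinset (fun _ : Fin n => K), prs (idx H A) ≤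
      wt K H n * F₀.card := by
  have h1 := mean_prs (n := n) hK hHK
  have h2 : (K.card : ℝ) ^ n * ((n : ℝ) ^ 2 * (((H.card : ℝ) / K.card) * ((H.card : ℝ) / K.card)))
      ≤ wt K H n := by
    calc (K.card : ℝ) ^ n * ((n : ℝ) ^ 2 * (((H.card : ℝ) / K.card) * ((H.card : ℝ) / K.card)))
        = wt K H n * ((n : ℝ) ^ 2 * ((H.card : ℝ) / K.card)) := by unfold wt; ring
      _ ≤ wt K H n * 1 := mul_le_mul_of_nonneg_left hρ wt_nonneg
      _ = wt K H n := mul_one _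
  calc (F₀.card : ℝ) * ∑ A ∈ Fintype.piFinset (fun _ : Fin n => K), prs (idx H A)
      ≤ F₀.card * wt K H n := mul_le_mul_of_nonneg_left (h1.trans h2) (Nat.cast_nonneg _)
    _ = wt K H n * F₀.card := mul_comm _ _

theorem PP_lower {R : ℕ} (hτ : ∀ c : Finset ℕ → ℝ, ∑ i, c (τ i) =
    R * ∑ U ∈ F₀.image (fun S => S \ N), c U) (hK : K.Nonempty) (hHK : H ⊆ K)
    (hρ : (n : ℝ) ^ 2 * ((H.card : ℝ) / K.card) ≤ 1) :
    wt K H n * F₀.card * (R - 1) ≤ ((PP N F₀ K H τ).card : ℝ) := by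
  have h1 := card_PP_filter (N := N) (F₀ := F₀) (K := K) (H := H) (τ := τ)
    (fun _ => True) (fun _ => True)
  simp only [and_self, filter_true] at h1
  rw [h1]
  have h2 : ∑ A ∈ Fintype.piFinset (fun _ : Fin n => K),
      (∑ i ∈ idx H A, ((fib N F₀ (τ i)).card : ℝ) - F₀.card * prs (idx H A)) ≤
      ∑ A ∈ Fintype.piFinset (fun _ : Fin n => K), ((BB N F₀ τ (idx H A)).card : ℝ) :=
    sum_le_sum fun A _ => BB_lower (N := N) (F₀ := F₀) (τ := τ) (idx H A)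
  rw [sum_sub_distrib, ← mul_sum, mean_idx hK hHK, sum_fib hτ] at h2
  have h3 : (K.card : ℝ) ^ n * (((H.card : ℝ) / K.card) * (R * F₀.card)) =
      wt K H n * F₀.card * R := by unfold wt; ring
  rw [h3] at h2
  have h4 := prs_bound (F₀ := F₀) hK hHK hρ
  linarith

/-- the elements of `N` -/
theorem cnt_inner {R : ℕ} (hτ : ∀ c : Finset ℕ → ℝ, ∑ i, c (τ i) =
    R * ∑ U ∈ F₀.image (fun S => S \ N), c U) (hK : K.Nonempty) (hHK : H ⊆ K)
    (hH : H.Nonempty) (hn : 1 ≤ n)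
    (hρ : (n : ℝ) ^ 2 * ((H.card : ℝ) / K.card) ≤ 1) {y : ℕ} (hyN : y ∈ N) (hyM : y < M) {c1 : ℝ}
    (hF1 : (cnt F₀ y : ℝ) ≤ c1 * F₀.card) :
    (cnt (big M N F₀ K H τ) y : ℝ) ≤ wt K H n * F₀.card * (c1 * R + 2) := by
  have h1 := cnt_big_le (M := M) (N := N) (F₀ := F₀) (K := K) (H := H) (τ := τ) y
  have h2 : (PP N F₀ K H τ).filter (fun p => y ∈ p.2 ∪ enc M p.1) =
      (PP N F₀ K H τ).filter (fun p => True ∧ y ∈ p.2) := by
    apply filter_congr
    rintro ⟨A, B⟩ _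
    rw [mem_union, true_and]
    constructor
    · rintro (h | h)
      · exact h
      · have := le_of_mem_enc h
        omega
    · exact Or.inl
  rw [h2] at h1
  have h3 := card_PP_filter (N := N) (F₀ := F₀) (K := K) (H := H) (τ := τ)
    (fun _ => True) (fun B => y ∈ B)
  rw [filter_true] at h3
  have h4 : ∑ A ∈ Fintype.piFinset (fun _ : Fin n => K),
      (((BB N F₀ τ (idx H A)).filter (fun B => y ∈ B)).card : ℝ) ≤
      ∑ A ∈ Fintype.piFinset (fun _ : Fin n => K),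
        (∑ i ∈ idx H A, (((fib N F₀ (τ i)).filter (fun B => y ∈ B)).card : ℝ) +
          F₀.card * prs (idx H A)) :=
    sum_le_sum fun A _ =>
      BB_upper (N := N) (F₀ := F₀) (τ := τ) (fun B => y ∈ B) (idx H A)
  rw [sum_add_distrib, ← mul_sum, mean_idx hK hHK, sum_fib_x hτ hyN] at h4
  have h5 : (K.card : ℝ) ^ n * (((H.card : ℝ) / K.card) * (R * cnt F₀ y)) ≤
      wt K H n * F₀.card * (c1 * R) := by
    have h51 : 0 ≤ wt K H n * R := mul_nonneg wt_nonneg (Nat.cast_nonneg _)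
    calc (K.card : ℝ) ^ n * (((H.card : ℝ) / K.card) * (R * cnt F₀ y))
        = wt K H n * R * cnt F₀ y := by unfold wt; ring
      _ ≤ wt K H n * R * (c1 * F₀.card) := mul_le_mul_of_nonneg_left hF1 h51
      _ = wt K H n * F₀.card * (c1 * R) := by ring
  have h6 : ((F₀.filter (fun S => S ⊆ N ∧ y ∈ S)).card : ℝ) ≤ wt K H n * F₀.card := by
    have h7 : ((F₀.filter (fun S => S ⊆ N ∧ y ∈ S)).card : ℝ) ≤ F₀.card := by
      exact_mod_cast card_filter_le _ _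
    have h8 : 1 * (F₀.card : ℝ) ≤ wt K H n * F₀.card :=
      mul_le_mul_of_nonneg_right (one_le_wt hn hH hK) (Nat.cast_nonneg _)
    linarith
  have h7 : (cnt (big M N F₀ K H τ) y : ℝ) ≤ (F₀.filter (fun S => S ⊆ N ∧ y ∈ S)).card +
      (((PP N F₀ K H τ).filter (fun p => True ∧ y ∈ p.2)).card : ℝ) := by
    exact_mod_cast h1
  rw [h3] at h7
  have h8 : wt K H n * F₀.card * (c1 * R + 2) =
      wt K H n * F₀.card * (c1 * R) + wt K H n * F₀.card + wt K H n * F₀.card := by ring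
  have h9 := prs_bound (F₀ := F₀) hK hHK hρ
  linarith

theorem filter_inner_empty (hM : ∀ x ∈ N, x < M) {y : ℕ} (hyM : ¬ y < M) :
    F₀.filter (fun S => S ⊆ N ∧ y ∈ S) = ∅ := by
  rw [filter_eq_empty_iff]
  rintro S _ ⟨h4, h5⟩
  exact hyM (hM y (h4 h5))

/-- the new elements -/
theorem cnt_outer {R : ℕ} (hτ : ∀ c : Finset ℕ → ℝ, ∑ i, c (τ i) =
    R * ∑ U ∈ F₀.image (fun S => S \ N), c U) (hM : ∀ x ∈ N, x < M) (hK : K.Nonempty)
    (hHK : H ⊆ K) (hρ : (n : ℝ) ^ 2 * ((H.card : ℝ) / K.card) ≤ 1) {c1 : ℝ} (j : Fin n) (e : ℕ)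
    (hKcnt : (cnt K e : ℝ) ≤ c1 * K.card) :
    (cnt (big M N F₀ K H τ) (M + Nat.pair j e) : ℝ) ≤ wt K H n * F₀.card * (c1 * R + 2) := by
  have hyM : ¬ M + Nat.pair j e < M := by omega
  have h2 := cnt_big_le (M := M) (N := N) (F₀ := F₀) (K := K) (H := H) (τ := τ)
    (M + Nat.pair j e)
  rw [filter_inner_empty hM hyM, card_empty, zero_add] at h2
  have h4 : (PP N F₀ K H τ).filter (fun p => M + Nat.pair j e ∈ p.2 ∪ enc M p.1) ⊆
      (PP N F₀ K H τ).filter (fun p => e ∈ p.1 j ∧ True) := by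
    intro p hp
    rw [mem_filter] at hp ⊢
    refine ⟨hp.1, ?_, trivial⟩
    obtain ⟨hp1, hp2⟩ := hp
    rw [mem_PP] at hp1
    rcases mem_union.1 hp2 with h5 | h5
    · exact absurd (hM _ (tr_subset (BB_subset_tr _ hp1.2) h5)) hyM
    · exact code_mem_enc.1 h5
  have h5 : (cnt (big M N F₀ K H τ) (M + Nat.pair j e) : ℝ) ≤
      (((PP N F₀ K H τ).filter (fun p => e ∈ p.1 j ∧ True)).card : ℝ) := by
    exact_mod_cast h2.trans (card_le_card h4)
  rw [card_PP_filter (N := N) (F₀ := F₀) (K := K) (H := H) (τ := τ)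
    (fun A => e ∈ A j) (fun _ => True)] at h5
  have h6 : ∑ A ∈ (Fintype.piFinset (fun _ : Fin n => K)).filter (fun A => e ∈ A j),
      (((BB N F₀ τ (idx H A)).filter (fun _ => True)).card : ℝ) ≤
      ∑ A ∈ (Fintype.piFinset (fun _ : Fin n => K)).filter (fun A => e ∈ A j),
        (∑ i ∈ idx H A, ((fib N F₀ (τ i)).card : ℝ) + F₀.card * prs (idx H A)) := by
    refine sum_le_sum fun A _ => ?_
    have := BB_upper (N := N) (F₀ := F₀) (τ := τ) (fun _ => True) (idx H A)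
    simpa using this
  rw [sum_add_distrib, ← mul_sum] at h6
  have h7 := mean_idx_mem (n := n) hK hHK (fun i => ((fib N F₀ (τ i)).card : ℝ))
    (fun i => Nat.cast_nonneg _) (m := F₀.card)
    (fun i => by exact_mod_cast card_fib_le _) e hKcnt j
  rw [sum_fib hτ] at h7
  have h8 : F₀.card * ∑ A ∈ (Fintype.piFinset (fun _ : Fin n => K)).filter (fun A => e ∈ A j),
      prs (idx H A) ≤ wt K H n * F₀.card := by
    refine le_trans ?_ (prs_bound (F₀ := F₀) hK hHK hρ)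
    apply mul_le_mul_of_nonneg_left _ (Nat.cast_nonneg _)
    exact sum_le_sum_of_subset_of_nonneg (filter_subset _ _) fun A _ _ => prs_nonneg _
  have h9 : (K.card : ℝ) ^ n * (((H.card : ℝ) / K.card) * (c1 * (R * F₀.card) + F₀.card)) =
      wt K H n * F₀.card * (c1 * R) + wt K H n * F₀.card := by unfold wt; ring
  rw [h9] at h7
  have h10 : wt K H n * F₀.card * (c1 * R + 2) =
      wt K H n * F₀.card * (c1 * R) + wt K H n * F₀.card + wt K H n * F₀.card := by ring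
  linarith

/-- the other natural numbers -/
theorem cnt_other {y : ℕ} (hyN : y ∉ N)
    (hy : ¬ ∃ i : Fin n, ∃ e : ℕ, M + Nat.pair i e = y) :
    cnt (big M N F₀ K H τ) y = 0 := by
  have h2 := cnt_big_le (M := M) (N := N) (F₀ := F₀) (K := K) (H := H) (τ := τ) y
  have h3 : F₀.filter (fun S => S ⊆ N ∧ y ∈ S) = ∅ := by
    rw [filter_eq_empty_iff]
    rintro S _ ⟨h4, h5⟩
    exact hyN (h4 h5)
  have h4 : (PP N F₀ K H τ).filter (fun p => y ∈ p.2 ∪ enc M p.1) = ∅ := by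
    rw [filter_eq_empty_iff]
    rintro ⟨A, B⟩ hp h5
    rw [mem_PP] at hp
    rcases mem_union.1 h5 with h5 | h5
    · exact hyN (tr_subset (BB_subset_tr _ hp.2) h5)
    · obtain ⟨i, e, _, h6⟩ := mem_enc.1 h5
      exact hy ⟨i, e, h6⟩
  rw [h3, h4] at h2
  simpa using h2

/-- a member coming from a pair has many elements outside `N` -/
theorem large_outside (hM : ∀ x ∈ N, x < M) {s : ℕ} (hH : ∀ X ∈ H, s < X.card)
    {A : Fin n → Finset ℕ} {B : Finset ℕ} (hp : (A, B) ∈ PP N F₀ K H τ) :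
    s < ((B ∪ enc M A) \ N).card := by
  rw [mem_PP] at hp
  have h3 : (idx H A).Nonempty := by
    rw [nonempty_iff_ne_empty]
    intro he
    have h4 : B ∈ BB N F₀ τ (idx H A) := hp.2
    rw [he] at h4
    simp [BB] at h4
  obtain ⟨i, hi⟩ := h3
  unfold idx at hi
  rw [mem_filter] at hi
  have h5 : (A i).image (fun e => M + Nat.pair i e) ⊆ (B ∪ enc M A) \ N := by
    intro y hy
    obtain ⟨e, he, rfl⟩ := mem_image.1 hy
    rw [mem_sdiff]
    refine ⟨mem_union_right _ (code_mem_enc.2 he), fun hc => ?_⟩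
    have := hM _ hc
    omega
  have h6 := card_le_card h5
  rw [card_image_of_injective] at h6
  · exact lt_of_lt_of_le (hH _ hi.2) h6
  · intro a b hab
    have h7 : M + Nat.pair i a = M + Nat.pair i b := hab
    have h8 : Nat.pair i a = Nat.pair i b := by omega
    rw [Nat.pair_eq_pair] at h8
    exact h8.2

theorem mem_big {S : Finset ℕ} : S ∈ big M N F₀ K H τ ↔ (S ∈ F₀ ∧ S ⊆ N) ∨
    ∃ (A : Fin n → Finset ℕ) (B : Finset ℕ), (A, B) ∈ PP N F₀ K H τ ∧ B ∪ enc M A = S := by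
  unfold big
  rw [mem_union, mem_filter, mem_image]
  constructor
  · rintro (h | ⟨⟨A, B⟩, h, rfl⟩)
    · exact Or.inl h
    · exact Or.inr ⟨A, B, h, rfl⟩
  · rintro (h | ⟨A, B, h, rfl⟩)
    · exact Or.inl h
    · exact Or.inr ⟨(A, B), h, rfl⟩

theorem big_ne (hM : ∀ x ∈ N, x < M) {s : ℕ} (hH : ∀ X ∈ H, s < X.card)
    (h1 : 0 < (PP N F₀ K H τ).card) : big M N F₀ K H τ ≠ {∅} := by
  intro hcon
  obtain ⟨⟨A, B⟩, hp⟩ := card_pos.1 h1
  have h2 : B ∪ enc M A ∈ big M N F₀ K H τ := mem_big.2 (Or.inr ⟨A, B, hp, rfl⟩)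
  rw [hcon, mem_singleton] at h2
  have h3 := large_outside hM hH hp
  rw [h2] at h3
  simp at h3

theorem big_filter (hM : ∀ x ∈ N, x < M) {s : ℕ} (hH : ∀ X ∈ H, s < X.card) :
    (big M N F₀ K H τ).filter (fun S => S ⊆ N) = F₀.filter (fun S => S ⊆ N) := by
  ext S
  rw [mem_filter, mem_filter, mem_big]
  constructor
  · rintro ⟨hS | ⟨A, B, hp, rfl⟩, hSN⟩
    · exact hS
    · exfalso
      have h3 := large_outside hM hH hp
      have h4 : (B ∪ enc M A) \ N = ∅ := sdiff_eq_empty_iff_subset.2 hSN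
      rw [h4] at h3
      simp at h3
  · rintro ⟨hS, hSN⟩
    exact ⟨Or.inl ⟨hS, hSN⟩, hSN⟩

theorem big_traces (hM : ∀ x ∈ N, x < M) (hn : 2 ≤ n) (hHK : H ⊆ K) (hH : H.Nonempty) :
    (big M N F₀ K H τ).image (fun S => S ∩ N) = F₀.image (fun S => S ∩ N) := by
  apply Subset.antisymm
  · intro T hT
    obtain ⟨S, hS, rfl⟩ := mem_image.1 hT
    exact big_trace (F₀ := F₀) (K := K) (H := H) (τ := τ) hM hS
  · intro T hT
    obtain ⟨X, hX⟩ := hH
    have h1 : idx H (fun _ : Fin n => X) = univ := by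
      unfold idx
      rw [filter_true_of_mem]
      intro i _
      exact hX
    have h2 : ((fun _ : Fin n => X), T) ∈ PP N F₀ K H τ := by
      rw [mem_PP]
      refine ⟨fun _ => hHK hX, ?_⟩
      have h3 : BB N F₀ τ (idx H (fun _ : Fin n => X)) = tr N F₀ := by
        rw [h1]
        unfold BB
        rw [if_neg]
        rw [card_univ, Fintype.card_fin]
        omega
      rw [h3]
      exact hT
    have h4 : T ∪ enc M (fun _ : Fin n => X) ∈ big M N F₀ K H τ :=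
      mem_big.2 (Or.inr ⟨_, _, h2, rfl⟩)
    have h5 : (T ∪ enc M (fun _ : Fin n => X)) ∩ N = T := by
      ext y
      rw [mem_inter, mem_union]
      constructor
      · rintro ⟨h3 | h3, h4⟩
        · exact h3
        · exfalso
          have := le_of_mem_enc h3
          have := hM y h4
          omega
      · intro h3
        exact ⟨Or.inl h3, tr_subset hT h3⟩
    exact mem_image.2 ⟨_, h4, h5⟩

theorem big_outside (hM : ∀ x ∈ N, x < M) {s : ℕ} (hH : ∀ X ∈ H, s < X.card) {S : Finset ℕ}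
    (hS : S ∈ big M N F₀ K H τ) (hSN : ¬ S ⊆ N) : s < (S \ N).card := by
  rw [mem_big] at hS
  rcases hS with hS | ⟨A, B, hp, rfl⟩
  · exact absurd hS.2 hSN
  · exact large_outside hM hH hp

/-- numerical part -/
theorem num_part {c c1 X R b : ℝ} (hc0 : 0 < c) (hc1 : c ≤ 1) (hX : 0 < X) (hR : 3 < (c - c1) * R)
    (hb : X * (R - 1) ≤ b) : X * (c1 * R + 2) < c * b := by
  have h1 : c * (X * (R - 1)) ≤ c * b := mul_le_mul_of_nonneg_left hb hc0.le
  have h2 : X * (c1 * R + 2) < X * (c * R - 1) := mul_lt_mul_of_pos_left (by linarith) hX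
  have h3 : X * (c * R - 1) ≤ c * (X * (R - 1)) := by
    have h4 : 0 ≤ X * (1 - c) := mul_nonneg hX.le (by linarith)
    have h5 : c * (X * (R - 1)) - X * (c * R - 1) = X * (1 - c) := by ring
    linarith
  linarith

/-- The choice of the constants. -/
theorem consts {c : ℝ} (hc0 : 0 < c) (hc1 : c ≤ 1) (hN : N.Nonempty)
    (hrare : ∀ x ∈ N, (cnt F₀ x : ℝ) < c * F₀.card) {G : Finset (Finset ℕ)}
    (hGr : ∀ v, (cnt G v : ℝ) < c * G.card) :
    ∃ c1 : ℝ, 0 ≤ c1 ∧ c1 < c ∧ (∀ v, (cnt G v : ℝ) ≤ c1 * G.card) ∧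
      (∀ x ∈ N, (cnt F₀ x : ℝ) ≤ c1 * F₀.card) ∧ ∃ R : ℕ, 3 < (c - c1) * R ∧ 3 < R := by
  obtain ⟨xm, hxm, hmax⟩ := N.exists_max_image (cnt F₀) hN
  have hf0 : (0 : ℝ) < F₀.card := by
    have h1 := hrare xm hxm
    have h2 : (0 : ℝ) ≤ cnt F₀ xm := Nat.cast_nonneg _
    by_contra hcon
    push Not at hcon
    have : c * (F₀.card : ℝ) ≤ 0 := mul_nonpos_of_nonneg_of_nonpos hc0.le hcon
    linarith
  obtain ⟨cG, hcG0, hcG1, hcG2⟩ := exists_const G c hGr
  obtain ⟨c1, hc1def⟩ : ∃ c1 : ℝ, c1 = max cG ((cnt F₀ xm : ℝ) / F₀.card) := ⟨_, rfl⟩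
  have hc1c : c1 < c := by
    rw [hc1def, max_lt_iff]
    refine ⟨hcG1, ?_⟩
    rw [div_lt_iff₀ hf0]
    exact hrare xm hxm
  have h1 : cG ≤ c1 := by rw [hc1def]; exact le_max_left _ _
  have h2 : (cnt F₀ xm : ℝ) ≤ c1 * F₀.card := by
    rw [← div_le_iff₀ hf0, hc1def]
    exact le_max_right _ _
  have hc10 : 0 ≤ c1 := hcG0.trans h1
  refine ⟨c1, hc10, hc1c, ?_, ?_, ?_⟩
  · intro v
    exact (hcG2 v).trans (mul_le_mul_of_nonneg_right h1 (Nat.cast_nonneg _))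
  · intro x hx
    have h3 : (cnt F₀ x : ℝ) ≤ cnt F₀ xm := by exact_mod_cast hmax x hx
    linarith
  · obtain ⟨R, hR⟩ := exists_nat_gt (3 / (c - c1))
    have hcc : 0 < c - c1 := by linarith
    have hR3 : 3 < (c - c1) * R := by
      rw [div_lt_iff₀ hcc] at hR
      linarith
    refine ⟨R, hR3, ?_⟩
    have h1 : (c - c1) * (R : ℝ) ≤ 1 * R :=
      mul_le_mul_of_nonneg_right (by linarith) (Nat.cast_nonneg _)
    have h4 : (3 : ℝ) < R := by linarith
    exact_mod_cast h4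

/-- **Gluing.** -/
theorem glue {c : ℝ} (hc0 : 0 < c) (hc1 : c ≤ 1) (hN : N.Nonempty)
    (hF : UC F₀) (hrare : ∀ x ∈ N, (cnt F₀ x : ℝ) < c * F₀.card)
    {G : Finset (Finset ℕ)} (hG : UC G) (hne : G ≠ {∅})
    (hGr : ∀ v, (cnt G v : ℝ) < c * G.card) (s : ℕ) :
    ∃ F : Finset (Finset ℕ), UC F ∧ F ≠ {∅} ∧
      F.filter (fun S => S ⊆ N) = F₀.filter (fun S => S ⊆ N) ∧
      F.image (fun S => S ∩ N) = F₀.image (fun S => S ∩ N) ∧
      (∀ S ∈ F, ¬ S ⊆ N → s < (S \ N).card) ∧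
      ∀ y, (cnt F y : ℝ) < c * F.card := by
  -- the data
  obtain ⟨M, hM⟩ : ∃ M, ∀ x ∈ N, x < M := by
    refine ⟨N.sup id + 1, fun x hx => ?_⟩
    have : x ≤ N.sup id := Finset.le_sup (f := id) hx
    omega
  have hf0 : (0 : ℝ) < F₀.card := by
    obtain ⟨x, hx⟩ := hN
    have h1 := hrare x hx
    have h2 : (0 : ℝ) ≤ cnt F₀ x := Nat.cast_nonneg _
    by_contra hcon
    push Not at hcon
    have : c * (F₀.card : ℝ) ≤ 0 := mul_nonpos_of_nonneg_of_nonpos hc0.le hcon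
    linarith
  have hF₀ne : F₀.Nonempty := by
    rw [← card_pos]
    exact_mod_cast hf0
  have hGne : G.Nonempty := by
    rw [nonempty_iff_ne_empty]
    rintro rfl
    have := hGr 0
    simp [cnt] at this
  obtain ⟨c1, hc10, hc1c, hG1, hF1, R, hR3, hRpos⟩ := consts hc0 hc1 hN hrare hGr
  obtain ⟨n, hn⟩ : ∃ n : ℕ, n = (F₀.image (fun S => S \ N)).card * R := ⟨_, rfl⟩
  obtain ⟨τ, hτ⟩ : ∃ τ : Fin n → Finset ℕ, ∀ c : Finset ℕ → ℝ,
      ∑ i, c (τ i) = R * ∑ U ∈ F₀.image (fun S => S \ N), c U := by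
    rw [hn]
    exact exists_tau _ R
  have hn2 : 2 ≤ n := by
    have h1 : 1 ≤ (F₀.image (fun S => S \ N)).card := (hF₀ne.image _).card_pos
    rw [hn]
    calc 2 ≤ 1 * R := by omega
      _ ≤ _ := Nat.mul_le_mul_right _ h1
  have hn1 : 1 ≤ n := by omega
  have hnR : (0 : ℝ) < n := by exact_mod_cast hn1
  obtain ⟨K, H, hK, hHK, hHabs, hHne, hHpos, hHcard, hKcnt⟩ :=
    powers hG hne hGne hc10 (lt_of_lt_of_le hc1c hc1) hG1 (η := 1 / (n : ℝ) ^ 2)
      (by positivity) s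
  have hKne : K.Nonempty := hHne.mono hHK
  have hk : (0 : ℝ) < K.card := by exact_mod_cast hKne.card_pos
  have hρ : (n : ℝ) ^ 2 * ((H.card : ℝ) / K.card) ≤ 1 := by
    have h1 : (H.card : ℝ) / K.card ≤ 1 / (n : ℝ) ^ 2 := by
      rw [div_le_iff₀ hk]
      exact hHcard
    calc (n : ℝ) ^ 2 * ((H.card : ℝ) / K.card) ≤ (n : ℝ) ^ 2 * (1 / (n : ℝ) ^ 2) :=
          mul_le_mul_of_nonneg_left h1 (by positivity)
      _ = 1 := by field_simp
  have hX : 0 < wt K H n * F₀.card :=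
    mul_pos (lt_of_lt_of_le one_pos (one_le_wt hn1 hHne hKne)) hf0
  have hPP := PP_lower hτ hKne hHK hρ
  have hcard : wt K H n * F₀.card * (R - 1) ≤ ((big M N F₀ K H τ).card : ℝ) := by
    refine hPP.trans ?_
    exact_mod_cast card_big_ge (K := K) (H := H) (F₀ := F₀) (τ := τ) hM
  have hR1 : (1 : ℝ) < R := by
    have : 1 < R := by omega
    exact_mod_cast this
  have hpos : 0 < wt K H n * F₀.card * (R - 1) := mul_pos hX (by linarith)
  have hfin := num_part hc0 hc1 hX hR3 hcard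
  have hcpos : 0 < c * ((big M N F₀ K H τ).card : ℝ) := mul_pos hc0 (by linarith)
  have hPPpos : 0 < (PP N F₀ K H τ).card := by
    have : (0 : ℝ) < ((PP N F₀ K H τ).card : ℝ) := by linarith
    exact_mod_cast this
  refine ⟨big M N F₀ K H τ, big_UC hF hK hHabs, big_ne hM hHpos hPPpos, big_filter hM hHpos,
    big_traces hM hn2 hHK hHne, fun S hS hSN => big_outside hM hHpos hS hSN, ?_⟩
  · intro y
    by_cases hyN : y ∈ N
    · exact lt_of_le_of_lt
        (cnt_inner hτ hKne hHK hHne hn1 hρ hyN (hM y hyN) (hF1 y hyN)) hfin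
    · by_cases hy : ∃ i : Fin n, ∃ e : ℕ, M + Nat.pair i e = y
      · obtain ⟨j, e, rfl⟩ := hy
        exact lt_of_le_of_lt (cnt_outer hτ hM hKne hHK hρ j e (hKcnt e)) hfin
      · rw [cnt_other hyN hy]
        simpa using hcpos

end Pool.Agent.U86.UCD
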