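import Pool.Agent.U86.UCD.Glue

/-!
# Two small union-closed families without a frequent element in a given set
-/

set_option autoImplicit false

namespace Pool.Agent.U86.UCD

open Finset

/-- the bit belonging to the element `y` -/
def bit (k y : ℕ) : ℕ := if y < k then min y 2 else y - k + 3

/-- the set coded by `m`: the elements `2, …, k - 1` behave in the same way -/
def blow (k m : ℕ) : Finset ℕ := (range (k + 6)).filter (fun y => Nat.testBit m (bit k y))

theorem mem_blow {k m y : ℕ} : y ∈ blow k m ↔ y < k + 6 ∧ Nat.testBit m (bit k y) = true := by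
  unfold blow
  rw [mem_filter, mem_range]

theorem blow_union (k a b : ℕ) : blow k a ∪ blow k b = blow k (a ||| b) := by
  ext y
  rw [mem_union, mem_blow, mem_blow, mem_blow, Nat.testBit_or, Bool.or_eq_true]
  tauto

theorem blow_inj {k : ℕ} (hk : 3 ≤ k) {a b : ℕ} (ha : a < 2 ^ 9) (hb : b < 2 ^ 9)
    (h : blow k a = blow k b) : a = b := by
  have key : ∀ y, y < k + 6 → Nat.testBit a (bit k y) = Nat.testBit b (bit k y) := by
    intro y hy
    have h1 : y ∈ blow k a ↔ y ∈ blow k b := by rw [h]
    rw [mem_blow, mem_blow] at h1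
    rw [Bool.eq_iff_iff]
    tauto
  apply Nat.eq_of_testBit_eq
  intro i
  by_cases hi : i < 9
  · by_cases h3 : i < 3
    · have h4 : bit k i = i := by
        unfold bit
        rw [if_pos (by omega)]
        omega
      have := key i (by omega)
      rwa [h4] at this
    · have h4 : bit k (i - 3 + k) = i := by
        unfold bit
        rw [if_neg (by omega)]
        omega
      have := key (i - 3 + k) (by omega)
      rwa [h4] at this
  · have h1 : 2 ^ 9 ≤ 2 ^ i := Nat.pow_le_pow_right (by norm_num) (by omega)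
    rw [Nat.testBit_lt_two_pow (lt_of_lt_of_le ha h1), Nat.testBit_lt_two_pow (lt_of_lt_of_le hb h1)]

/-- the family coded by a set of numbers -/
def famOf (k : ℕ) (L : Finset ℕ) : Finset (Finset ℕ) := L.image (blow k)

theorem famOf_UC {k : ℕ} {L : Finset ℕ} (h : ∀ a ∈ L, ∀ b ∈ L, a ||| b ∈ L) : UC (famOf k L) := by
  intro X hX Y hY
  unfold famOf at hX hY ⊢
  obtain ⟨a, ha, rfl⟩ := mem_image.1 hX
  obtain ⟨b, hb, rfl⟩ := mem_image.1 hY
  rw [blow_union]
  exact mem_image_of_mem _ (h a ha b hb)

theorem famOf_card {k : ℕ} (hk : 3 ≤ k) {L : Finset ℕ} (hL : ∀ a ∈ L, a < 2 ^ 9) :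
    (famOf k L).card = L.card :=
  card_image_of_injOn fun a ha b hb h => blow_inj hk (hL a ha) (hL b hb) h

theorem famOf_cnt {k : ℕ} (hk : 3 ≤ k) {L : Finset ℕ} (hL : ∀ a ∈ L, a < 2 ^ 9) {y : ℕ}
    (hy : y < k) : cnt (famOf k L) y = (L.filter (fun m => Nat.testBit m (min y 2))).card := by
  unfold cnt famOf
  rw [filter_image, card_image_of_injOn]
  · congr 1
    apply filter_congr
    intro m _
    rw [mem_blow]
    have : bit k y = min y 2 := by unfold bit; rw [if_pos hy]
    rw [this]
    constructor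
    · exact fun h => h.2
    · exact fun h => ⟨by omega, h⟩
  · intro a ha b hb h
    exact blow_inj hk (hL a (mem_filter.1 ha).1) (hL b (mem_filter.1 hb).1) h

/-- `{0,1,2}`; `B ∪ (W \ {w})` with `B` one of `∅, {x}, {0,1,2}` for the two `w` belonging to `x`;
`B ∪ W`; here `W` is `{3, …, 8}` -/
def L27 : Finset ℕ :=
  {7, 496, 497, 503, 488, 489, 495, 472, 474, 479, 440, 442, 447, 376, 380, 383, 248, 252, 255,
    504, 505, 506, 507, 508, 509, 510, 511}

/-- `{x} ∪ (W \ {w})` for the two `w` belonging to `x`; `B ∪ W` with `B ≠ ∅` -/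
def L13 : Finset ℕ := {497, 489, 474, 442, 380, 252, 505, 506, 507, 508, 509, 510, 511}

theorem L27_UC : ∀ a ∈ L27, ∀ b ∈ L27, a ||| b ∈ L27 := by decide

theorem L13_UC : ∀ a ∈ L13, ∀ b ∈ L13, a ||| b ∈ L13 := by decide

theorem L27_lt : ∀ a ∈ L27, a < 2 ^ 9 := by decide

theorem L13_lt : ∀ a ∈ L13, a < 2 ^ 9 := by decide

theorem L27_card : L27.card = 27 := by decide

theorem L13_card : L13.card = 13 := by decide

theorem L27_cnt : ∀ i < 3, (L27.filter (fun m => Nat.testBit m i)).card = 13 := by decide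

theorem L13_cnt : ∀ i < 3, (L13.filter (fun m => Nat.testBit m i)).card = 6 := by decide

end Pool.Agent.U86.UCD
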